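import Pool.Agent.Helper40.GO.SPZ
import Pool.Agent.Helper10.GO.GoalsT
import Pool.Agent.Helper24.GO.QORB
import Pool.Agent.Helper35.HD.TOWER
import Pool.Agent.Helper73.HD.ORB

/-!
# Project GO (MP_6af536_nt): the orbits of subvarieties of codimension at most one satisfy `DML`.
-/

set_option autoImplicit false

open MvPolynomial Filter Topology

noncomputable section

namespace Pool.Agent.Helper40.GO

open Pool.Agent.Helper80.HD Pool.Agent.Helper80.AD Pool.Agent.Helper10.GO
open Pool.Agent.Helper73.HD (aeval_scale)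

section

variable (K : Type) [Field K] [Algebra K ℂ] {N : ℕ}

/-- `x` is in the `K`-closure of `y` -/
def SpecF (y x : Fin (N + 1) → ℂ) : Prop :=
  ∀ (d : ℕ) (E : MvPolynomial (Fin (N + 1)) K), E.IsHomogeneous d → aeval y E = 0 → aeval x E = 0

variable {K}

theorem SpecF.trans {x y z : Fin (N + 1) → ℂ} (h₁ : SpecF K x y) (h₂ : SpecF K y z) : SpecF K x z :=
  fun d E hE h => h₂ d E hE (h₁ d E hE h)

theorem SpecF.coord {x y : Fin (N + 1) → ℂ} (h : SpecF K y x) {p : Fin (N + 1)} (hp : x p ≠ 0) : y p ≠ 0 := by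
  intro h0
  apply hp
  have := h 1 (X p) (isHomogeneous_X K p) (by rw [aeval_X]; exact h0)
  rwa [aeval_X] at this

theorem SpecF.ne {x y : Fin (N + 1) → ℂ} (h : SpecF K y x) (hx : x ≠ 0) : y ≠ 0 := by
  obtain ⟨p, hp⟩ := Function.ne_iff.1 hx
  exact Function.ne_iff.2 ⟨p, h.coord hp⟩

/-- dehomogenization -/
theorem SpecF.deh {x y : Fin (N + 1) → ℂ} (h : SpecF K y x) {p : Fin (N + 1)} (hp : x p ≠ 0)
    (Q : MvPolynomial (Fin (N + 1)) K) (hQ : aeval (nrm y p) Q = 0) : aeval (nrm x p) Q = 0 := by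
  have hyp := h.coord hp
  have hgen : ∀ z : Fin (N + 1) → ℂ, z p ≠ 0 →
      aeval z (∑ i ∈ Finset.range (Q.totalDegree + 1), X p ^ (Q.totalDegree - i) * homogeneousComponent i Q) =
        z p ^ Q.totalDegree * aeval (nrm z p) Q := by
    intro z hz
    have hsum : aeval (nrm z p) Q = ∑ i ∈ Finset.range (Q.totalDegree + 1),
        aeval (nrm z p) (homogeneousComponent i Q) := by
      rw [← map_sum, sum_homogeneousComponent]
    rw [hsum, map_sum, Finset.mul_sum]
    refine Finset.sum_congr rfl fun i hi => ?_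
    have hzz : z = fun j => z p * nrm z p j := by
      funext j
      unfold nrm
      field_simp
    have h1 : aeval z (homogeneousComponent i Q) = z p ^ i * aeval (nrm z p) (homogeneousComponent i Q) := by
      conv_lhs => rw [hzz]
      exact aeval_scale (homogeneousComponent_isHomogeneous i Q) _ _
    rw [map_mul, map_pow, aeval_X, h1, ← mul_assoc, ← pow_add]
    congr 2
    have := Finset.mem_range.1 hi
    omega
  have hhom : (∑ i ∈ Finset.range (Q.totalDegree + 1),
      X p ^ (Q.totalDegree - i) * homogeneousComponent i Q).IsHomogeneous Q.totalDegree := by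
    refine IsHomogeneous.sum _ _ _ fun i hi => ?_
    have h2 := (isHomogeneous_X_pow (R := K) p (Q.totalDegree - i)).mul (homogeneousComponent_isHomogeneous i Q)
    have h3 : Q.totalDegree - i + i = Q.totalDegree := by
      have := Finset.mem_range.1 hi
      omega
    rwa [h3] at h2
  have h4 := h _ _ hhom (by rw [hgen y hyp, hQ, mul_zero])
  rw [hgen x hp] at h4
  exact (mul_eq_zero.1 h4).resolve_left (pow_ne_zero _ hp)

theorem spec_trdeg {x y : Fin (N + 1) → ℂ} (h : SpecF K y x) (hx : x ≠ 0) :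
    Algebra.trdeg K (ratioField K x) ≤ Algebra.trdeg K (ratioField K y) := by
  obtain ⟨p, hp⟩ := Function.ne_iff.1 hx
  have hyp := h.coord hp
  rw [Pool.Agent.Helper35.HD.ratioField_eq K x p hp, Pool.Agent.Helper35.HD.ratioField_eq K y p hyp]
  obtain ⟨n, f, hf, hn⟩ := exists_basis (K := K) (nrm x p)
  rw [← hn]
  have h1 : AlgebraicIndependent K (fun i => nrm y p (f i)) := by
    rw [algebraicIndependent_iff]
    intro P hP
    have h2 := h.deh hp (rename f P) (by rw [aeval_rename]; exact hP)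
    rw [aeval_rename] at h2
    exact (algebraicIndependent_iff.1 hf) P h2
  let yE : Fin (N + 1) → IntermediateField.adjoin K (Set.range (nrm y p)) := fun i =>
    ⟨nrm y p i, IntermediateField.subset_adjoin K _ ⟨i, rfl⟩⟩
  have h3 : AlgebraicIndependent K (fun i => yE (f i)) := by
    have h4 : AlgebraicIndependent K ((IntermediateField.val _).comp (AlgHom.id K _) ∘ fun i => yE (f i)) := h1
    exact AlgebraicIndependent.of_comp _ h4
  have h5 := h3.cardinalMk_le_trdeg
  simpa using h5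

theorem spec_symm {x y : Fin (N + 1) → ℂ} (h : SpecF K y x) (hx : x ≠ 0)
    (htr : Algebra.trdeg K (ratioField K y) ≤ Algebra.trdeg K (ratioField K x)) : SpecF K x y := by
  obtain ⟨p, hp⟩ := Function.ne_iff.1 hx
  have hyp := h.coord hp
  rw [Pool.Agent.Helper35.HD.ratioField_eq K x p hp, Pool.Agent.Helper35.HD.ratioField_eq K y p hyp] at htr
  have h1 := spec_eq (K := K) (x := nrm x p) (y := nrm y p) (h.deh hp) htr
  intro d E hE hEx
  have hsc : ∀ z : Fin (N + 1) → ℂ, z p ≠ 0 → aeval z E = z p ^ d * aeval (nrm z p) E := by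
    intro z hz
    have hzz : z = fun j => z p * nrm z p j := by
      funext j
      unfold nrm
      field_simp
    conv_lhs => rw [hzz]
    exact aeval_scale hE _ _
  rw [hsc x hp] at hEx
  have h2 := h1 E ((mul_eq_zero.1 hEx).resolve_left (pow_ne_zero _ hp))
  rw [hsc y hyp, h2, mul_zero]

/-- the homogeneous prime ideal of the point `z` -/
def hI (K : Type) [Field K] [Algebra K ℂ] (z : Fin (N + 1) → ℂ) : Ideal (MvPolynomial (Fin (N + 1)) K) :=
  RingHom.ker (aeval (fun j => Polynomial.C (z j) * Polynomial.X) :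
    MvPolynomial (Fin (N + 1)) K →ₐ[K] Polynomial ℂ)

instance (z : Fin (N + 1) → ℂ) : (hI K z).IsPrime := RingHom.ker_isPrime _

theorem mem_hI {z : Fin (N + 1) → ℂ} {d : ℕ} {E : MvPolynomial (Fin (N + 1)) K} (hE : E.IsHomogeneous d) :
    E ∈ hI K z ↔ aeval z E = 0 := by
  have h1 : (aeval (fun j => Polynomial.C (z j) * Polynomial.X) : MvPolynomial (Fin (N + 1)) K →ₐ[K] Polynomial ℂ) E =
      Polynomial.C (aeval z E) * Polynomial.X ^ d := by
    rw [aeval_def, eval₂_eq', aeval_def, eval₂_eq', map_sum, Finset.sum_mul]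
    refine Finset.sum_congr rfl fun s hs => ?_
    have h2 : ∑ i, s i = d := by
      have h3 := hE (mem_support_iff.1 hs)
      have h4 : Finsupp.degree s = d := by
        rw [← h3, Finsupp.degree_eq_weight_one]
        rfl
      rw [← h4, Finsupp.degree_eq_sum]
    simp only [mul_pow]
    rw [Finset.prod_mul_distrib, Finset.prod_pow_eq_pow_sum, h2, ← mul_assoc]
    congr 1
    rw [map_mul, map_prod]
    congr 1
    refine Finset.prod_congr rfl fun i _ => ?_
    rw [map_pow]
  unfold hI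
  rw [RingHom.mem_ker]
  show (aeval (fun j => Polynomial.C (z j) * Polynomial.X) : MvPolynomial (Fin (N + 1)) K →ₐ[K] Polynomial ℂ) E = 0 ↔ _
  rw [h1]
  constructor
  · intro h
    rcases mul_eq_zero.1 h with h | h
    · exact Polynomial.C_eq_zero.1 h
    · exact absurd h (pow_ne_zero _ Polynomial.X_ne_zero)
  · intro h
    rw [h, map_zero, zero_mul]

/-- the vectors of `ℂ^(N+1)` which are generic points of the minimal primes of an ideal generated by forms -/
theorem exists_points (K : Type) [Field K] [NumberField K] [Algebra K ℂ] {N : ℕ}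
    (𝓔 : Set (MvPolynomial (Fin (N + 1)) K)) (h𝓔 : ∀ E ∈ 𝓔, ∃ d, E.IsHomogeneous d) :
    ∃ (ι : Type) (_ : Finite ι) (η : ι → Fin (N + 1) → ℂ), (∀ i, ∀ E ∈ 𝓔, aeval (η i) E = 0) ∧
      ∀ z : Fin (N + 1) → ℂ, (∀ E ∈ 𝓔, aeval z E = 0) → ∃ i, SpecF K (η i) z := by
  have hfin : (Ideal.span 𝓔).minimalPrimes.Finite := Ideal.finite_minimalPrimes_of_isNoetherianRing _ _
  have hP : ∀ Q : (Ideal.span 𝓔).minimalPrimes, ∃ η : Fin (N + 1) → ℂ, ∀ E : MvPolynomial (Fin (N + 1)) K,
      E ∈ (Q : Ideal (MvPolynomial (Fin (N + 1)) K)) ↔ aeval η E = 0 := by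
    intro Q
    have hQ : (Q : Ideal (MvPolynomial (Fin (N + 1)) K)).IsPrime := Q.2.1.1
    exact exists_generic K (Fin (N + 1)) _
  choose η hη using hP
  refine ⟨(Ideal.span 𝓔).minimalPrimes, hfin.to_subtype, η, ?_, ?_⟩
  · intro Q E hE
    exact (hη Q E).1 (Q.2.1.2 (Ideal.subset_span hE))
  · intro z hz
    have hle : Ideal.span 𝓔 ≤ hI K z := by
      rw [Ideal.span_le]
      intro E hE
      obtain ⟨d, hd⟩ := h𝓔 E hE
      exact (mem_hI hd).2 (hz E hE)
    obtain ⟨Q, hQ, hQz⟩ := Ideal.exists_minimalPrimes_le hle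
    refine ⟨⟨Q, hQ⟩, fun d E hE h0 => ?_⟩
    exact (mem_hI hE).1 (hQz ((hη ⟨Q, hQ⟩ E).2 h0))

section orbit

variable (K : Type) [Field K] [NumberField K] [Algebra K ℂ] {N : ℕ}

/-- In a closed set with generic point `η` of dimension `≤ k + 1` a form which does not vanish at `η` vanishes only at
finitely many points of a sequence of pairwise different points of dimension `k`. -/
theorem finite_zero {x : ℕ → Fin (N + 1) → ℂ} {k : ℕ} (hx0 : ∀ n, x n ≠ 0)
    (htr : ∀ n, Algebra.trdeg K (ratioField K (x n)) = k)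
    (hne : ∀ n m, n ≠ m → ¬ (SpecF K (x n) (x m) ∧ SpecF K (x m) (x n))) {η : Fin (N + 1) → ℂ}
    (hη : Algebra.trdeg K (ratioField K η) ≤ (k : Cardinal) + 1) {d : ℕ} {E : MvPolynomial (Fin (N + 1)) K}
    (hE : E.IsHomogeneous d) (hE0 : aeval η E ≠ 0) : {n | SpecF K η (x n) ∧ aeval (x n) E = 0}.Finite := by
  obtain ⟨ι, hι, θ, hθ, hθs⟩ := exists_points K
    ({R | (∃ e, R.IsHomogeneous e) ∧ aeval η R = 0} ∪ {E} : Set (MvPolynomial (Fin (N + 1)) K)) (by
      rintro R (⟨⟨e, he⟩, -⟩ | rfl)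
      · exact ⟨e, he⟩
      · exact ⟨d, hE⟩)
  have key : ∀ n ∈ {n | SpecF K η (x n) ∧ aeval (x n) E = 0}, ∃ i, SpecF K (θ i) (x n) ∧ SpecF K (x n) (θ i) := by
    rintro n ⟨hn, hnE⟩
    obtain ⟨i, hi⟩ := hθs (x n) (by
      rintro R (⟨⟨e, he⟩, h0⟩ | rfl)
      · exact hn e R he h0
      · exact hnE)
    refine ⟨i, hi, ?_⟩
    have h1 : SpecF K η (θ i) := fun e R he h0 => hθ i R (Or.inl ⟨⟨e, he⟩, h0⟩)
    have h2 : aeval (θ i) E = 0 := hθ i E (Or.inr rfl)
    have h3 : ¬ SpecF K (θ i) η := fun h => hE0 (h d E hE h2)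
    have hθ0 : θ i ≠ 0 := hi.ne (hx0 n)
    have h4 : Algebra.trdeg K (ratioField K (θ i)) < Algebra.trdeg K (ratioField K η) := by
      by_contra hcon
      exact h3 (spec_symm h1 hθ0 (not_lt.1 hcon))
    have h5 : Algebra.trdeg K (ratioField K (θ i)) ≤ (k : Cardinal) := by
      have h6 := h4.trans_le hη
      have h7 : (k : Cardinal) + 1 = Order.succ (k : Cardinal) := by
        rw [← Cardinal.succ_natCast]
      rw [h7] at h6
      exact Order.lt_succ_iff.1 h6
    exact spec_symm hi (hx0 n) (h5.trans (htr n).ge)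
  choose g hg using key
  have hinj : Function.Injective (fun n : {n | SpecF K η (x n) ∧ aeval (x n) E = 0} => g n.1 n.2) := by
    rintro ⟨n, hn⟩ ⟨m, hm⟩ hnm
    by_contra hcon
    have hnm' : g n hn = g m hm := hnm
    have h1 := hg n hn
    have h2 := hg m hm
    rw [← hnm'] at h2
    exact hne n m (fun h => hcon (Subtype.ext h)) ⟨h1.2.trans h2.1, h2.2.trans h1.1⟩
  exact Set.finite_coe_iff.1 (Finite.of_injective _ hinj)

end orbit

section maps

variable {K : Type} [Field K] [Algebra K ℂ] {N : ℕ}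

/-- If some value of the formula `l` is not zero at `a` then it is a nonzero multiple of the image. -/
theorem img_formula {f : QMap K N} {a a' : Fin (N + 1) → ℂ} (ha : f.Mem a) (h : f.IsImage a a') {l : Fin f.r}
    {j : Fin (N + 1)} (hl : aeval a (f.G l j) ≠ 0) : ∃ c : ℂ, c ≠ 0 ∧ ∀ i, aeval a (f.G l i) = c * a' i := by
  obtain ⟨ha'0, l', c, hc0, hc⟩ := h
  obtain ⟨q, hq⟩ := Function.ne_iff.1 ha'0
  have hq' : a' q ≠ 0 := hq
  have h1 : ∀ i, aeval a (f.G l i) = aeval a (f.G l q) / a' q * a' i := by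
    intro i
    have h2 := f.agree a ha.1 ha.2 l l' i q
    rw [hc, hc] at h2
    field_simp
    have h3 : c * (aeval a (f.G l i) * a' q) = c * (aeval a (f.G l q) * a' i) := by linear_combination h2
    exact mul_left_cancel₀ hc0 h3
  refine ⟨aeval a (f.G l q) / a' q, ?_, h1⟩
  intro h0
  apply hl
  rw [h1 j, h0, zero_mul]

/-- composition of a form with a formula -/
theorem comp_hom {f : QMap K N} (l : Fin f.r) {d : ℕ} {E : MvPolynomial (Fin (N + 1)) K} (hE : E.IsHomogeneous d) :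
    (aeval (f.G l) E).IsHomogeneous (f.deg l * d) := by
  have := hE.aeval (f.G l) (fun j => f.G_homog l j)
  exact this

theorem aeval_comp (z : Fin (N + 1) → ℂ) (g : Fin (N + 1) → MvPolynomial (Fin (N + 1)) K)
    (E : MvPolynomial (Fin (N + 1)) K) : aeval z (aeval g E) = aeval (fun j => aeval z (g j)) E := by
  rw [← AlgHom.comp_apply, comp_aeval]

/-- specializations are compatible with the map -/
theorem spec_img {f : QMap K N} {a b b' : Fin (N + 1) → ℂ} (hab : SpecF K a b) {l : Fin f.r} {c : ℂ}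
    (hc : c ≠ 0) (hb : ∀ j, aeval b (f.G l j) = c * b' j) :
    SpecF K (fun j => aeval a (f.G l j)) b' := by
  intro d E hE h0
  have h1 := hab _ _ (comp_hom l hE) (by rw [aeval_comp]; exact h0)
  rw [aeval_comp, show (fun j => aeval b (f.G l j)) = fun j => c * b' j from funext hb, aeval_scale hE] at h1
  exact (mul_eq_zero.1 h1).resolve_left (pow_ne_zero _ hc)

theorem spec_step {f : QMap K N} {a a' b b' : Fin (N + 1) → ℂ} (ha : f.Mem a) (hab : SpecF K a b)
    (hia : f.IsImage a a') (hib : f.IsImage b b') : SpecF K a' b' := by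
  obtain ⟨hb'0, l, c, hc0, hc⟩ := hib
  obtain ⟨q, hq⟩ := Function.ne_iff.1 hb'0
  have h1 : aeval b (f.G l q) ≠ 0 := by
    rw [hc]
    exact mul_ne_zero hc0 hq
  have h2 : aeval a (f.G l q) ≠ 0 := fun h0 => h1 (hab _ _ (f.G_homog l q) h0)
  obtain ⟨c', hc'0, hc'⟩ := img_formula ha hia h2
  have h3 := spec_img hab hc0 hc
  intro d E hE h0
  refine h3 d E hE ?_
  rw [show (fun j => aeval a (f.G l j)) = fun j => c' * a' j from funext hc', aeval_scale hE, h0, mul_zero]

end maps

/-- The orbits of codimension at most one satisfy `DML`. -/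
theorem hyp (K : Type) [Field K] [NumberField K] [Algebra K ℂ] (N : ℕ) (f : QMap K N) (x : ℕ → Fin (N + 1) → ℂ)
    (k : ℕ) (hx : f.IsOrbit x) (htr : ∀ n, Algebra.trdeg K (ratioField K (x n)) = k)
    (hX : ∀ y, f.Mem y → Algebra.trdeg K (ratioField K y) ≤ (k : Cardinal) + 1) : DML K x := by
  have hmem : ∀ n, f.Mem (x n) := (((Pool.Agent.Helper24.GO.qorb K N f).2.2) x hx).1
  intro d E hE
  by_cases hcase : ∃ n m, n ≠ m ∧ (SpecF K (x n) (x m) ∧ SpecF K (x m) (x n))
  · obtain ⟨n, m, hnm, h⟩ : ∃ n m, n < m ∧ (SpecF K (x n) (x m) ∧ SpecF K (x m) (x n)) := by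
      obtain ⟨n, m, hnm, h⟩ := hcase
      rcases lt_or_gt_of_ne hnm with h1 | h1
      · exact ⟨n, m, h1, h⟩
      · exact ⟨m, n, h1, h.2, h.1⟩
    have hall : ∀ i, SpecF K (x (n + i)) (x (m + i)) ∧ SpecF K (x (m + i)) (x (n + i)) := by
      intro i
      induction i with
      | zero => exact h
      | succ i ih => exact ⟨spec_step (hmem _) ih.1 (hx.2 _) (hx.2 _), spec_step (hmem _) ih.2 (hx.2 _) (hx.2 _)⟩
    refine ⟨m - n, by omega, n, fun j hj => ?_⟩
    obtain ⟨i, rfl⟩ := Nat.exists_eq_add_of_le hj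
    have h1 : n + i + (m - n) = m + i := by omega
    show aeval (x (n + i)) E = 0 ↔ aeval (x (n + i + (m - n))) E = 0
    rw [h1]
    exact ⟨(hall i).1 d E hE, (hall i).2 d E hE⟩
  · have hne : ∀ n m, n ≠ m → ¬ (SpecF K (x n) (x m) ∧ SpecF K (x m) (x n)) := fun n m hnm h =>
      hcase ⟨n, m, hnm, h⟩
    have hx0 : ∀ n, x n ≠ 0 := fun n => (hmem n).1
    obtain ⟨ι, hι, η, hη, hηs⟩ := exists_points K f.eqs f.eqs_homog
    -- membership in the components
    have hη1 : ∀ i n, SpecF K (η i) (x n) → f.Mem (η i) := fun i n h => ⟨h.ne (hx0 n), hη i⟩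
    have hfin : ∀ i (e : ℕ) (R : MvPolynomial (Fin (N + 1)) K), R.IsHomogeneous e → aeval (η i) R ≠ 0 →
        ∀ᶠ n in atTop, SpecF K (η i) (x n) → aeval (x n) R ≠ 0 := by
      intro i e R hR hR0
      by_cases hi : ∃ n, SpecF K (η i) (x n)
      · obtain ⟨n, hn⟩ := hi
        have h1 := finite_zero K hx0 htr hne (hX _ (hη1 i n hn)) hR hR0
        have h2 := h1.eventually_cofinite_notMem
        rw [Nat.cofinite_eq_atTop] at h2
        exact h2.mono fun m hm hs h0 => hm ⟨hs, h0⟩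
      · exact Filter.Eventually.of_forall fun n hn => absurd ⟨n, hn⟩ hi
    have hstep : ∀ i, ∃ i', ∀ᶠ n in atTop, SpecF K (η i) (x n) → SpecF K (η i') (x (n + 1)) := by
      intro i
      by_cases hi : ∃ n, SpecF K (η i) (x n)
      · obtain ⟨n, hn⟩ := hi
        obtain ⟨hb'0, l, c, hc0, hc⟩ := hx.2 n
        obtain ⟨q, hq⟩ := Function.ne_iff.1 hb'0
        have h1 : aeval (x n) (f.G l q) ≠ 0 := by
          rw [hc]
          exact mul_ne_zero hc0 hq
        have h2 : aeval (η i) (f.G l q) ≠ 0 := fun h0 => h1 (hn _ _ (f.G_homog l q) h0)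
        have hM := hη1 i n hn
        obtain ⟨i', hi'⟩ := hηs (fun j => aeval (η i) (f.G l j)) (fun R hR => f.maps _ hM.1 hM.2 l R hR)
        refine ⟨i', (hfin i _ _ (f.G_homog l q) h2).mono fun m hm hs => ?_⟩
        obtain ⟨c', hc'0, hc'⟩ := img_formula (hmem m) (hx.2 m) (hm hs)
        exact hi'.trans (spec_img hs hc'0 hc')
      · exact ⟨i, Filter.Eventually.of_forall fun n hn => absurd ⟨n, hn⟩ hi⟩
    choose φ hφ using hstep
    have hφ' : ∀ᶠ n in atTop, ∀ i, SpecF K (η i) (x n) → SpecF K (η (φ i)) (x (n + 1)) :=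
      Filter.eventually_all.2 hφ
    obtain ⟨n₁, hn₁⟩ := Filter.eventually_atTop.1 hφ'
    obtain ⟨i₀, hi₀⟩ := hηs (x n₁) (hmem n₁).2
    have hit : ∀ m, SpecF K (η (φ^[m] i₀)) (x (n₁ + m)) := by
      intro m
      induction m with
      | zero => exact hi₀
      | succ m ih =>
        rw [Function.iterate_succ_apply']
        exact hn₁ (n₁ + m) (by omega) _ ih
    have hE' : ∀ᶠ n in atTop, ∀ i, SpecF K (η i) (x n) → (aeval (x n) E = 0 ↔ aeval (η i) E = 0) := by
      refine Filter.eventually_all.2 fun i => ?_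
      by_cases h0 : aeval (η i) E = 0
      · exact Filter.Eventually.of_forall fun n hn => ⟨fun _ => h0, fun _ => hn d E hE h0⟩
      · exact (hfin i d E hE h0).mono fun n hn hs => ⟨fun h => absurd h (hn hs), fun h => absurd h h0⟩
    obtain ⟨n₂, hn₂⟩ := Filter.eventually_atTop.1 hE'
    obtain ⟨a, b, hab, heq⟩ := Finite.exists_ne_map_eq_of_infinite (fun m : ℕ => φ^[m] i₀)
    obtain ⟨a, b, hab, heq⟩ : ∃ a b, a < b ∧ φ^[a] i₀ = φ^[b] i₀ := by
      rcases lt_or_gt_of_ne hab with h1 | h1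
      · exact ⟨a, b, h1, heq⟩
      · exact ⟨b, a, h1, heq.symm⟩
    refine ⟨b - a, by omega, max n₂ (n₁ + a), fun n hn => ?_⟩
    have h1 : n₂ ≤ n := (le_max_left _ _).trans hn
    have h2 : n₁ + a ≤ n := (le_max_right _ _).trans hn
    obtain ⟨m, rfl⟩ := Nat.exists_eq_add_of_le h2
    have h3 : φ^[a + m] i₀ = φ^[b + m] i₀ := by
      rw [Nat.add_comm a m, Nat.add_comm b m, Function.iterate_add_apply, Function.iterate_add_apply, heq]
    have h4 := hit (a + m)
    have h5 := hit (b + m)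
    rw [← Nat.add_assoc] at h4 h5
    have h6 : n₁ + a + m + (b - a) = n₁ + b + m := by omega
    show aeval (x (n₁ + a + m)) E = 0 ↔ aeval (x (n₁ + a + m + (b - a))) E = 0
    rw [h6, hn₂ _ h1 _ h4, hn₂ _ (by omega) _ h5, h3]

end

end Pool.Agent.Helper40.GO
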