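import Pool.Agent.Helper10.GO.GoalsP2
import Pool.Agent.Helper80.HD.GoalsB

/-!
# Project GO (MP_6af536_nt), module Q: the Mordell-Lang property for unramified self-maps of quasi-projective varieties
(theorem of Bell, Ghioca and Tucker), by p-adic interpolation on the affine cone.

Every `def S_XXX : Prop` is a packet; `uses A` means that `S_A` is a hypothesis of your theorem.
-/

set_option autoImplicit false

open MvPolynomial Filter Topology

noncomputable section

namespace Pool.Agent.Helper40.GO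

open Pool.Agent.Helper10.GO Pool.Agent.Helper80.HD

/-- PACKET QNUL (0.8 h; uses `Pool.Agent.Helper80.HD.S_NUL`, proved: `Pool.Agent.Helper27.HD.nul`): Hilbert's Nullstellensatz with zeros in `ℂ`.

PROOF (Rabinowitsch).  In the variables `Option σ`, `T = X none`: the polynomials `rename some Q`, `Q ∈ 𝒮`, and `1 - T * rename some P` have no common zero in `ℂ`, so by NUL they generate the unit ideal: `1 = ∑_i a_i (rename some Q_i) + b (1 - T * rename some P)` (finite sum).
Substitute `T = 1/P`: i.e. apply the homomorphism to the fraction field (or localization `Localization.Away P`) of `MvPolynomial σ K` with `X (some j) ↦ X j`, `T ↦ 1/P` (if `P = 0` the claim is clear, `e = 1`), and multiply by a power `P^e`: `P^e = ∑_i a'_i Q_i`. -/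
def S_QNUL : Prop := ∀ (K : Type) [Field K] [Algebra K ℂ] (σ : Type) [Finite σ] (𝒮 : Set (MvPolynomial σ K))
  (P : MvPolynomial σ K), (∀ y : σ → ℂ, (∀ Q ∈ 𝒮, aeval y Q = 0) → aeval y P = 0) → ∃ e : ℕ, P ^ e ∈ Ideal.span 𝒮

/-- PACKET QLIN (0.8 h): linear algebra.

PROOF.  `U = ker A`, `B` is injective on `U`.  Let `C` be a complement of the range of `A` in `k^m`: `dim C = m - rank A = dim U = dim B(U)`.  Choose a linear map `W : k^s → k^m` which maps `B(U)` isomorphically to `C` and is `0` on a complement `D` of `B(U)` in `k^s`... then `A + W B` is injective: let `A v + W B v = 0`.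
The range of `W` is `C`, so `A v ∈ range A ∩ C = 0` and `W B v = 0`: `v ∈ U`, `B v ∈ B(U)`, so `B v = 0`, `v ∈ ker A ∩ ker B = 0`.  (Matrices: `Matrix.toLin'`, `LinearMap.toMatrix'`; injective implies `det ≠ 0`.) -/
def S_QLIN : Prop := ∀ (k : Type) [Field k] (m s : ℕ) (A : Matrix (Fin m) (Fin m) k) (B : Matrix (Fin s) (Fin m) k),
  (∀ v : Fin m → k, A.mulVec v = 0 → B.mulVec v = 0 → v = 0) → ∃ W : Matrix (Fin m) (Fin s) k, (A + W * B).det ≠ 0

/-- The matrix of the rows `ρ` of the Jacobian matrices of `G` and `E`. -/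
def rowMat {R : Type} [CommRing R] {M s : ℕ} (G : Fin M → MvPolynomial (Fin M) R) (E : Fin s → MvPolynomial (Fin M) R)
    (ρ : Fin M → Fin M ⊕ Fin s) : Matrix (Fin M) (Fin M) (MvPolynomial (Fin M) R) :=
  Matrix.of fun i j => Sum.elim (fun i' => pderiv j (G i')) (fun i' => pderiv j (E i')) (ρ i)

/-- The hypothesis of the theorem: `U = {y ∈ X : some P c is not 0 at y}`, `f(U) ⊂ U` and `f` is unramified on `U`
(on the affine cones: the differential of a formula of `f` is injective on the tangent space of the cone at `y`). -/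
def UnrOn {K : Type} [Field K] [Algebra K ℂ] {N : ℕ} (f : QMap K N) {ι : Type}
    (P : ι → MvPolynomial (Fin (N + 1)) K) : Prop :=
  ∀ y : Fin (N + 1) → ℂ, f.Mem y → (∃ c, aeval y (P c) ≠ 0) →
    ∃ l, (∃ c', aeval (fun j => aeval y (f.G l j)) (P c') ≠ 0) ∧
      ∀ v : Fin (N + 1) → ℂ, (∀ i, ∑ j, aeval y (pderiv j (f.G l i)) * v j = 0) →
        (∀ (d : ℕ) (E : MvPolynomial (Fin (N + 1)) K), E.IsHomogeneous d → (∀ z, f.Mem z → aeval z E = 0) →
          ∑ j, aeval y (pderiv j E) * v j = 0) → v = 0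

/-- PACKET QCERT (2 h; uses QNUL): the certificate.

PROOF.  `𝓔` = set of the forms over `K` that vanish at all points of `X` (`f.Mem`); it contains `f.eqs`.  For `l`, `c'` and a family `ρ` of `N + 1` rows (gradients of the `f.G l i` or of elements of `𝓔`) let `Θ = aeval (f.G l) (P c') * det(rows)`.
Claim: if all elements of `𝓔` and all the `Θ` vanish at `y ∈ ℂ^(N+1)`, then `P c` vanishes at `y` for every `c`.  If `y = 0`: `P c` has positive degree.  Let `y ≠ 0`, so `f.Mem y` (`f.eqs ⊆ 𝓔`).  If `P c (y) ≠ 0`: take `l`, `c'` from `UnrOn`.  The rows (gradients at `y` of all the `f.G l i` and all `E ∈ 𝓔`) have no common zero `v ≠ 0`, so they span the dual space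
`ℂ^(N+1)` and `N + 1` of them form a basis (`exists_linearIndependent`-type lemma: a spanning set contains a basis), so the determinant is not `0`, `Θ(y) = P c' (F_l(y)) det ≠ 0`: contradiction.
QNUL for `𝒮 = 𝓔 ∪ {Θ}` and `P c`: `P c ^ e ∈ span 𝒮`, a finite sum.  Collect the finitely many `Θ` (index type `T`, a finite type, for example a `Finset` coerced to a type) and the finitely many `E ∈ 𝓔` which occur in the sums or in the rows of these `Θ` (numbered by `Fin s`), for the finitely many `c`; the missing coefficients `A`, `B` are `0`. -/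
def S_QCERT : Prop := ∀ (K : Type) [Field K] [Algebra K ℂ] (N : ℕ) (f : QMap K N) (ι : Type) [Finite ι]
  (P : ι → MvPolynomial (Fin (N + 1)) K), (∀ c, ∃ e : ℕ, 1 ≤ e ∧ (P c).IsHomogeneous e) → UnrOn f P →
    ∃ (s : ℕ) (E : Fin s → MvPolynomial (Fin (N + 1)) K) (T : Type) (_ : Fintype T) (l : T → Fin f.r) (c' : T → ι)
      (ρ : T → Fin (N + 1) → Fin (N + 1) ⊕ Fin s) (A : ι → T → MvPolynomial (Fin (N + 1)) K)
      (B : ι → Fin s → MvPolynomial (Fin (N + 1)) K) (e : ι → ℕ),
      (∀ i, ∃ d, (E i).IsHomogeneous d) ∧ (∀ i z, f.Mem z → aeval z (E i) = 0) ∧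
      ∀ c, P c ^ e c = ∑ t, A c t * (aeval (f.G (l t)) (P (c' t)) * (rowMat (f.G (l t)) E (ρ t)).det) +
        ∑ i, B c i * E i

/-- PACKET QPAD (2.5 h; uses QLIN and `Pool.Agent.Helper10.GO.S_CHN`, `S_PDM2`, proved: `Pool.Agent.Helper8.GO`, `Pool.Agent.Helper87.GO.pdm2`): the p-adic statement.

PROOF.  The residues `ā n ∈ (ZMod p)^N`: `l n` depends only on `ā n` (third hypothesis), so `ā (n+1)` depends only on `ā n`, and the sequence of the residues is eventually periodic: there are `n₀`, `a₀ ≥ 1` with `ā (n + a₀) = ā n` for `n ≥ n₀`.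
For each `n` QLIN over `ZMod p` for `A` = the matrix of the residues of `eval (a n) (pderiv j (G (l n) i))`, `B` = the one for the `E i`: `W̄`, which we choose as a function of the residue (for `n₀ ≤ n < n₀ + a₀`, and periodic).  Lift `W̄` to `W n` over `ℤ_[p]`.  `g n i = G (l n) i + ∑_t C (W n i t) * E t`: `eval (a n) (g n i) = a (n+1) i`
(the `E t` vanish at `a n`), and `det (eval (a n) (pderiv j (g n i)))` is a unit (its residue is `det (A + W̄ B) ≠ 0`; `IsLocalRing`, `PadicInt.toZMod`).  For `n ≥ n₀` the polynomials `g n` depend only on `n mod a₀`.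
Fix `r ≥ n₀`.  `h 0 = X`, `h (m+1) i = aeval (h m) (g (r + m) i)` (composition); `f = h a₀`.  By induction `eval (a (r + a₀ q)) (h m i) = a (r + a₀ q + m) i`, and the determinant of the Jacobian of `h m` at `a (r + a₀ q)` is the product of the ones of `g (r + m')` at `a (r + a₀ q + m')`, `m' < m` (chain rule, CHN (1) with general `f`: if you need it for different maps prove
`pderiv j (aeval f G) = ∑_l aeval f (pderiv l G) * pderiv j (f l)` directly, it is CHN (1)); a unit (the residue of `a (r + a₀ q + m')` is the one of `a (r + m')`).  PDM2 for `f` and the sequence `q ↦ a (r + a₀ q)`: `{q : eval (a (r + a₀ q)) φ = 0}` is eventually periodic with a period `p_r`.  Do this for `r = n₀, …, n₀ + a₀ - 1`; the period of the whole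
sequence is `a₀ ∏_r p_r`. -/
def S_QPAD : Prop := ∀ (p : ℕ) [Fact p.Prime] (N r s : ℕ) (G : Fin r → Fin N → MvPolynomial (Fin N) ℤ_[p])
  (E : Fin s → MvPolynomial (Fin N) ℤ_[p]) (a : ℕ → Fin N → ℤ_[p]) (l : ℕ → Fin r) (φ : MvPolynomial (Fin N) ℤ_[p]),
  3 ≤ p → (∀ n i, a (n + 1) i = eval (a n) (G (l n) i)) → (∀ n j, eval (a n) (E j) = 0) →
  (∀ n m, (∀ i, (p : ℤ_[p]) ∣ a n i - a m i) → l n = l m) →
  (∀ n, ∀ v : Fin N → ZMod p, (∀ i, ∑ j, PadicInt.toZMod (eval (a n) (pderiv j (G (l n) i))) * v j = 0) →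
    (∀ i, ∑ j, PadicInt.toZMod (eval (a n) (pderiv j (E i))) * v j = 0) → v = 0) →
    EvPer fun n => eval (a n) φ = 0

/-- PACKET QSPR (2.5 h; uses QCERT, QPAD and `Pool.Agent.Helper10.GO.S_EMB`, proved: `Pool.Agent.Helper82.GO.emb`): the theorem.

PROOF.  QCERT.  `R₀ = Algebra.adjoin ℤ S`, `S` = the finite set of the images in `ℂ` of the coefficients of all `P c`, `f.G l i`, `E i`, `A c t`, `B c i`, of the form `Q` for which we want `EvPer`, of the `x 0 j`, and `(P c₀ (x 0))⁻¹` (`c₀` with `P c₀ (x 0) ≠ 0`).  Every polynomial above has a lift `P̃ c`, … over `R₀` (the same image over `ℂ`);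
`MvPolynomial.map` along `R₀ → ℂ` is injective, so the identity of QCERT holds for the lifts (`aeval`, `pderiv`, `det` commute with `map`).  EMB: `σ : R₀ → ℤ_[p]` injective, `p ≥ 3`; `τ = toZMod ∘ σ : R₀ → ZMod p`.
Choice: for `z ∈ (ZMod p)^(N+1)` let `L z = l t` for some `t` with `τ(Θ̃_t)(z) ≠ 0` if there is one (`Θ̃_t` = lift of the product in QCERT), otherwise anything (`f.r > 0` because `x` is an orbit).  `Y 0 = x 0`, `Y (n+1) = eval (Y n) (G̃ (L (τ Y n)))`, vectors over `R₀`.
Invariant: (in `ℂ`) `Y n = c_n x n` with `c_n ≠ 0`, and `τ(P̃ c)(τ Y n) ≠ 0` for some `c`.  `n = 0`: `P̃ c₀ (x 0)` is invertible in `R₀`.  Step: `E i (Y n) = 0` (a form which vanishes at `x n ∈ X`; `f.Mem (x n)`: `Pool.Agent.Helper24.GO.qorb`), so by the identity `τ(P̃ c)(τ Y n)^e = ∑ …` some `τ(Θ̃_t)(τ Y n) ≠ 0`; with `t` the chosen one, `l = l t`: `τ(P̃ (c' t))(τ Y (n+1)) ≠ 0`, and the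
matrix of the rows `ρ t` at `τ Y n` is invertible.  So `P (c' t)(Y (n+1)) ≠ 0` in `ℂ`, `Y (n+1) ≠ 0` (positive degree), `Y (n+1) = F_l(c_n x n) = c_n^(deg l) F_l(x n)`, and `F_l(x n) ≠ 0` is a nonzero multiple of `x (n+1)` (`Pool.Agent.Helper40.GO.img_formula` in `HYP.lean`).
QPAD for `M = N + 1` variables, `σ(G̃ l)`, `σ(Ẽ i)`, `a n = σ(Y n)`, `l n = L(τ Y n)`, `φ = σ(Q̃)`: the last hypothesis holds because the rows `ρ t` at `τ Y n` are independent.  `eval (a n) φ = σ(Q̃(Y n)) = 0` iff `Q(Y n) = c_n^d Q(x n) = 0` iff `Q(x n) = 0`. -/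
def S_UNR : Prop := ∀ (K : Type) [Field K] [Algebra K ℂ] (N : ℕ) (f : QMap K N) (x : ℕ → Fin (N + 1) → ℂ)
  (ι : Type) [Finite ι] (P : ι → MvPolynomial (Fin (N + 1)) K), f.IsOrbit x →
    (∀ c, ∃ e : ℕ, 1 ≤ e ∧ (P c).IsHomogeneous e) → (∃ c, aeval (x 0) (P c) ≠ 0) → UnrOn f P → DML K x

end Pool.Agent.Helper40.GO
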