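import Mathlib

/-!
# Project GO (MP_6af536_nt), part D: real analysis (growth of the diagonal).

Every `def S_XXX : Prop` is a packet; a packet may use the packets named in its docstring as hypotheses.
-/

set_option autoImplicit false

open Filter Topology

noncomputable section

namespace Pool.Agent.Helper40.GO

/-- The data of the growth lemma.  `U J`: (mixed height + mixed degrees) of the points of the orbit with the indices `J`;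
`κ i J`: the mixed degree without the slot `i`; `Λ`: the possible growth rates. -/
structure JumpData (k : ℕ) (U : (Fin (k + 1) → ℕ) → ℝ) (κ : Fin (k + 1) → (Fin (k + 1) → ℕ) → ℝ) (Λ : Finset ℝ) :
    Prop where
  κpos : ∀ i J, 0 < κ i J
  κupd : ∀ i J n, κ i (Function.update J i n) = κ i J
  κle : ∀ i J, κ i J ≤ U J
  lip : ∃ (C : ℝ) (n₀ : ℕ), 1 ≤ C ∧ ∀ i J, n₀ ≤ J i →
    U (Function.update J i (J i + 1)) ≤ C * U J ∧ U J ≤ C * U (Function.update J i (J i + 1))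
  jump : ∀ σ₁ σ₂ : ℝ, σ₁ < σ₂ → (∀ l ∈ Λ, l ≤ σ₁ ∨ σ₂ ≤ l) → ∀ ε : ℝ, 0 < ε → ∃ m : ℕ, 1 ≤ m ∧
    ∃ (C : ℝ) (n₀ : ℕ), 1 ≤ C ∧ ∀ i J, n₀ ≤ J i →
      Real.exp ((σ₁ + ε) * m) * U J ≤ U (Function.update J i (J i + m)) →
        C * κ i J ≤ U (Function.update J i (J i + m)) →
          Real.exp ((σ₂ - ε) * m) * U (Function.update J i (J i + m)) ≤ U (Function.update J i (J i + 2 * m))

/-- no element of `M` lies strictly between `σ₁ < σ₂` -/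
def Gap (M : Finset ℝ) (σ₁ σ₂ : ℝ) : Prop := σ₁ < σ₂ ∧ ∀ l ∈ M, l ≤ σ₁ ∨ σ₂ ≤ l

/-- The properties of the blow-down function `F` on the open orthant. -/
structure BlowData (n : ℕ) (F : (Fin n → ℝ) → ℝ) (M : Finset ℝ) (L : ℝ) : Prop where
  L0 : 0 ≤ L
  lip : ∀ s s' : Fin n → ℝ, (∀ i, 0 < s i) → (∀ i, 0 < s' i) → |F s - F s'| ≤ L * ∑ i, |s i - s' i|
  bd : ∀ s : Fin n → ℝ, (∀ i, 0 < s i) → |F s| ≤ L * ∑ i, s i
  gap : ∀ σ₁ σ₂ : ℝ, Gap M σ₁ σ₂ → ∀ (i : Fin n) (s : Fin n → ℝ) (b c : ℝ), (∀ i, 0 < s i) → s i < b → b < c →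
    σ₁ * (b - s i) < F (Function.update s i b) - F s →
      σ₂ * (c - b) ≤ F (Function.update s i c) - F (Function.update s i b)

/-- the sumset `M + … + M` (`k + 1` terms) -/
def Sums (k : ℕ) (M : Finset ℝ) : Set ℝ := {x | ∃ l : Fin (k + 1) → ℝ, (∀ i, l i ∈ M) ∧ x = ∑ i, l i}

/-- the property of the diagonal function: a strict interior maximum of `g - θ`, `θ r = b r + c r²`, is possible only if
`c ≥ 0` and `θ'(r) ∈ M + … + M` for some `r` -/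
def Visc (k : ℕ) (M : Finset ℝ) (g : ℝ → ℝ) : Prop :=
  ∀ b c s t u : ℝ, 0 < s → s < t → t < u →
    g s - (b * s + c * s ^ 2) < g t - (b * t + c * t ^ 2) →
    g u - (b * u + c * u ^ 2) < g t - (b * t + c * t ^ 2) →
      0 ≤ c ∧ ∃ r, s < r ∧ r < u ∧ b + 2 * c * r ∈ Sums k M

/-- PACKET JMP (1.5 h): one sequence.

Write `W j = W (n + j m)`; step `j` is good if `exp ρ₁ * W j ≤ W (j+1)`.  The hypothesis says: if step `j` is good and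
`C κ ≤ W (j+1)` then `W (j+2) ≥ exp ρ₂ * W (j+1)`, in particular step `j + 1` is good (`ρ₁ ≤ ρ₂`).
PROOF.  Let `j₀` be the last index in `[0, J]` with `j₀ = 0 ∨ W j₀ < C κ`; so `W j ≥ C κ` for `j₀ < j ≤ J`.
CASE `0 ≤ ρ₁`.  If `j₀ = J > 0` then `log W J - log W 0 < log (C κ) - log κ = log C`, contradiction to the hypothesis (`ρ₁ J ≥ 0`); `J = 0` contradicts `0 ≤ log C`.  So `j₀ < J`.
Some step `j ∈ [j₀, J)` is good: otherwise `W J < exp(ρ₁ (J - j₀)) W j₀` and (`W j₀ ≤ C κ ≤ C W 0` or `j₀ = 0`) `log W J < ρ₁ J + log C + log W 0`.  As `W (j+1) ≥ C κ`, and `ρ₂ ≥ 0`: by induction all later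
`W` are `≥ C κ` and all later steps have ratio `≥ exp ρ₂`.  So `log W J' - log W J ≥ ρ₂ (J' - J)`.
CASE `ρ₂ ≤ 0`.  Some step `j < J` is good (otherwise `log W J - log W 0 ≤ ρ₁ J ≤ ρ₁ J + log C`); now let `j₀` be the last index in `[j, J]` with `j₀ = j ∨ W j₀ < C κ`.
(a) `j₀ = J`: (`j < J`, so `W J < C κ`): `W J' ≥ κ > W J / C`.  (b) `j₀ < J`: step `j₀` is good (if `j₀ ≠ j`: `W j₀ < C κ ≤ W (j₀+1)` and `exp ρ₁ ≤ 1`), `W (j₀+1) ≥ C κ`.  By induction all the steps `j₀ + 1, …` up to the first index `i > J` with `W i < C κ` (if there is one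
`≤ J'`) have ratio `≥ exp ρ₂`: `log W i - log W J ≥ ρ₂ (i - J) ≥ ρ₂ (J' - J)` and `W J' ≥ κ > W i / C`; if there is no such `i` then `log W J' - log W J ≥ ρ₂ (J' - J)`. -/
def S_JMP : Prop := ∀ (W : ℕ → ℝ) (κ C ρ₁ ρ₂ : ℝ) (n₀ m : ℕ), 0 < κ → 1 ≤ C → ρ₁ ≤ ρ₂ → (0 ≤ ρ₁ ∨ ρ₂ ≤ 0) →
  (∀ n, κ ≤ W n) →
  (∀ n, n₀ ≤ n → Real.exp ρ₁ * W n ≤ W (n + m) → C * κ ≤ W (n + m) →
    Real.exp ρ₂ * W (n + m) ≤ W (n + 2 * m)) →
  ∀ n, n₀ ≤ n → ∀ J : ℕ, ρ₁ * J + Real.log C < Real.log (W (n + J * m)) - Real.log (W n) →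
    ∀ J', J ≤ J' → ρ₂ * ((J' : ℝ) - J) - Real.log C ≤ Real.log (W (n + J' * m)) - Real.log (W (n + J * m))

/-- PACKET BLO (2 h; uses JMP): the blow-down.

PROOF.  Let `C, n₀` be as in `lip`, `c = log C`.  `|log U J - log U J'| ≤ c ∑ |J i - J' i|` if all `J i, J' i ≥ n₀` (change one slot after the other, one step after the other).  For `s` in the open orthant and large `N` all
`⌊s i N⌋₊ ≥ n₀`, so `|log U(⌊s N⌋) / N|` is bounded by `(|log U(n₀,…,n₀)| + c ∑ s i N) / N`; the limit along the ultrafilter exists (`isCompact_Icc` / `Ultrafilter.le_nhds` of a compact set) and defines `F s`; `lip`, `bd` with `L = c` follow in the limit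
(`|⌊aN⌋ - ⌊bN⌋| ≤ |a - b| N + 1`, `N → ∞` along `𝒰`).
gap: `M = insert 0 Λ`, so `0 ≤ σ₁ ∨ σ₂ ≤ 0` (as `0 ∈ M`).  Let `δ = F(update s i b) - F s - σ₁ (b - s i) > 0`, and `0 < ε` small: `ε (b - s i) ≤ δ / 4`, `σ₁ + ε ≤ σ₂ - ε`, and if `σ₂ ≤ 0` fine (`σ₂ - ε ≤ 0`), if `σ₁ ≥ 0` fine (`σ₁ + ε ≥ 0`).  `jump` gives
`m, C', n₁`.  For `𝒰`-many `N`: `n = ⌊s i N⌋₊ ≥ max n₀ n₁`, `J = (⌊b N⌋₊ - n) / m`, `J' = (⌊c N⌋₊ - n) / m`, `J ≤ J'`, `W x = U (update (⌊s N⌋) i x)`, `κ = κ i (⌊s N⌋)`.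
`|n + J m - ⌊bN⌋| < m` so `log W (n + J m) - log W n ≥ log W ⌊bN⌋ - log W n - c m ≥ (σ₁ (b - s i) + δ/2) N - c m > (σ₁ + ε) m J + log C'` for large `N` (`|J m - (b - s i) N| ≤ m + 1`, so `(σ₁ + ε) m J ≤ (σ₁ + ε) (b - s i) N + |σ₁ + ε| (m + 1)`).
JMP (`ρ₁ = (σ₁ + ε) m`, `ρ₂ = (σ₂ - ε) m`): `log W (n + J' m) - log W (n + J m) ≥ (σ₂ - ε) m (J' - J) - log C'`.  Divide by `N`, limit along `𝒰`: `F(update s i c) - F(update s i b) ≥ (σ₂ - ε)(c - b)`; `ε → 0`.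
(`update (⌊s N⌋) i ⌊b N⌋ = ⌊(update s i b) N⌋`.) -/
def S_BLO : Prop := ∀ (k : ℕ) (U : (Fin (k + 1) → ℕ) → ℝ) (κ : Fin (k + 1) → (Fin (k + 1) → ℕ) → ℝ)
  (Λ : Finset ℝ), JumpData k U κ Λ → ∀ 𝒰 : Ultrafilter ℕ, (𝒰 : Filter ℕ) ≤ atTop →
    ∃ (F : (Fin (k + 1) → ℝ) → ℝ) (L : ℝ), BlowData (k + 1) F (insert 0 Λ) L ∧
      ∀ s : Fin (k + 1) → ℝ, (∀ i, 0 < s i) →
        Tendsto (fun N : ℕ => Real.log (U fun i => ⌊s i * N⌋₊) / N) 𝒰 (𝓝 (F s))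

/-- PACKET TCH (2 h): a function touching `F` from above forces `F` to be affine near the point.

PROOF.  Fix `i` and put `f r = F (update x i r)` (`r > 0`), `x̂ = x i`, `σ = σ i`, `q = q i`.
(1) `σ ∈ M`.  Otherwise there are `σ₁ < σ < σ₂` with `Gap M σ₁ σ₂` (finite set).  For `r < x̂` near `x̂`: `f x̂ - f r ≥ q x̂ - q r > σ₁ (x̂ - r)` (derivative), so by `gap` `f c - f x̂ ≥ σ₂ (c - x̂)` for all `c > x̂`; but `f c - f x̂ ≤ q c - q x̂ < σ₂ (c - x̂)` for `c`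
near `x̂`.  Contradiction.
(2) Let `σ₁ < σ < σ₂` with `Gap M σ₁ σ`, `Gap M σ σ₂`.  (2a) There is `η > 0` with `f b - f a ≥ σ (b - a)` for `x̂ - η < a < b`: choose `r₀ < x̂` near `x̂` with `f x̂ - f r₀ > σ₁ (x̂ - r₀)`; by continuity `f a - f r₀ > σ₁ (a - r₀)` for `a` near `x̂`; gap with
`(r₀, a, b)`.  (2b) There is `η > 0` with `f b - f a ≤ σ (b - a)` for `a < b < x̂ + η`: if this fails for `(a, b)` with `b ≤ x̂` then for all `c > x̂` `f c - f x̂ ≥ σ₂ (c - x̂)` (gap with `(a, b', c)`, `b' = x̂`; first `f x̂ - f a > σ (x̂ - a)` because `f x̂ - f b ≥ σ₂ (x̂ - b)`),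
contradiction to `q` as in (1).  If it fails for `(a_j, b_j)` with `b_j > x̂`, `b_j → x̂`: `f c - f b_j ≥ σ₂ (c - b_j)` for `c > b_j`, and in the limit `f c - f x̂ ≥ σ₂ (c - x̂)`, the same contradiction.
So `f` is affine with slope `σ` on `[x̂ - 3η, x̂ + 3η]` for some `η > 0`.
(3) Uniformly in the other coordinates: for `y` near `x` let `f_y r = F (update y i r)`.  By continuity `f_y (x̂ - 2η) - f_y (x̂ - 3η) > σ₁ η` (the value at `y = x` is `σ η`), so (gap, `f_y a - f_y (x̂ - 3η) > σ₁ (a - (x̂ - 3η))` for `a ≥ x̂ - 2η`: first from `gap` with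
`(x̂ - 3η, x̂ - 2η, a)`) `f_y b - f_y a ≥ σ (b - a)` for `x̂ - 2η ≤ a < b`.  Also `f_y (x̂ + 3η) - f_y (x̂ + 2η) < σ₂ η`; if `f_y b - f_y a > σ (b - a)` for some `a < b ≤ x̂ + 2η` then (gap with `(a, b, x̂ + 2η)`, then with `(a, x̂ + 2η, x̂ + 3η)`) `f_y (x̂ + 3η) - f_y (x̂ + 2η) ≥ σ₂ η`,
contradiction.  So for `y` near `x` (in a neighbourhood of `x`, with `|y i - x̂| < 2η`): `F y = F (update y i (x i)) + σ i * (y i - x i)`.
(4) Change the coordinates `0, 1, …, n - 1` of `y` into the ones of `x` one after the other. -/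
def S_TCH : Prop := ∀ (n : ℕ) (F : (Fin n → ℝ) → ℝ) (M : Finset ℝ) (L : ℝ), BlowData n F M L →
  ∀ (x : Fin n → ℝ) (q : Fin n → ℝ → ℝ) (σ : Fin n → ℝ), (∀ i, 0 < x i) →
    (∀ i, HasDerivAt (q i) (σ i) (x i)) →
    (∀ i, ∀ᶠ r in 𝓝 (x i), F (Function.update x i r) ≤ F x + (q i r - q i (x i))) →
      (∀ i, σ i ∈ M) ∧ ∀ᶠ y in 𝓝 x, F y = F x + ∑ i, σ i * (y i - x i)

/-- PACKET VIS (1.5 h; uses TCH): the diagonal.

PROOF.  `n = k + 1`, `x̄` = mean of `x`, `θ r = b r + c r²`, `g r = F (r, …, r)`.  `ρ = s / 2`, `𝒞 = {x | s ≤ x̄ ≤ u, ∀ i, |x i - x̄| ≤ ρ}`: compact, contained in the open orthant.  For `K > 0` let `Φ x = F x - θ x̄ - K ∑ (x i - x̄)²`, continuous on `𝒞` (`lip`); it has a maximum at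
`x̂ ∈ 𝒞`, `Φ x̂ ≥ Φ (t, …, t) = g t - θ t`.  With `y i = x i - x̄`: `F x ≤ g x̄ + L ∑ |y i|`, `L |y| - K y² ≤ L² / (2 K) - K y² / 2`.  So if `x̄ = s` or `x̄ = u`: `Φ x ≤ max (g s - θ s) (g u - θ u) + n L² / (2 K) < g t - θ t` for large `K`; and if `|y i| = ρ` for some `i`:
`Φ x ≤ max_{[s,u]} (g - θ) + n L² / (2 K) - K ρ² / 2 < g t - θ t` for large `K`.  So `x̂` is in the interior of `𝒞`, and TCH applies with `q i r = θ(mean) + K ∑ (…)²` evaluated at `update x̂ i r` (a polynomial in `r`).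
So `F y = F x̂ + ∑ σ i (y i - x̂ i)` near `x̂`, `σ i ∈ M`.  For `y = x̂ + h (1, …, 1)`, `h` small: `h ∑ σ i = F y - F x̂ ≤ θ (x̄̂ + h) - θ (x̄̂) = θ'(x̄̂) h + c h²` (the differences `y i - ȳ` do not change).  So `∑ σ i = θ'(x̄̂) = b + 2 c x̄̂` and `c ≥ 0`. -/
def S_VIS : Prop := ∀ (k : ℕ) (F : (Fin (k + 1) → ℝ) → ℝ) (M : Finset ℝ) (L : ℝ), BlowData (k + 1) F M L →
  Visc k M (fun r => F fun _ => r)

/-- PACKET CVX (1 h): consequences of `Visc`.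

PROOF.  `Sums k M` is finite.  (1) `g` is convex on `(0, ∞)`: if `s < t < u` and `g t > ℓ t`, `ℓ` the chord, let `θ r = ℓ r + ε (u - r)(r - s)` up to a constant (coefficient `c = -ε` of `r²`), `ε` small: `g - θ` is `0` at `s`, `u` and positive at `t`; so `-ε ≥ 0`, contradiction.
(2) Let `g 1 = v ∉ Sums k M`.  `h r = g r - v r` is convex, `h 1 = 0`, `|h r| ≤ (A + |v|) r`, so `h ≤ 0` on `(0, 1]` (chord from `r → 0` to `1`).  If `h t₀ = 0` for some `t₀ ∈ (0,1)` then `h = 0` on `(0, 1)` (convexity); with `θ r = v r + ε (r - 1/2)²` (up to a constant), `s, t, u = 1/4, 1/2, 3/4`: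
there is `r ∈ (1/4, 3/4)` with `v + 2 ε (r - 1/2) ∈ Sums k M`; for small `ε` this contradicts `v ∉ Sums k M` (finite, so closed).  (3) is the same computation. -/
def S_CVX : Prop := ∀ (k : ℕ) (M : Finset ℝ) (g : ℝ → ℝ) (A : ℝ), Visc k M g → (∀ r, 0 < r → |g r| ≤ A * r) →
  (g 1 ∉ Sums k M → ∀ t, 0 < t → t < 1 → g t < g 1 * t) ∧
  ∀ v : ℝ, (∀ r, 0 < r → g r = v * r) → v ∈ Sums k M

/-- PACKET FINB (2 h; uses BLO, VIS, CVX): the limit.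

PROOF.  `b n = log U(n, …, n)`, `C, n₀` from `lip`, `L₀ = (k + 1) log C`: `|b (n+1) - b n| ≤ L₀` for `n ≥ n₀` (change the slots one after the other), so `b n / n` is bounded.
(1) Convergence.  Otherwise `liminf < limsup`, and there are `v < v'` strictly between, `v ∉ Sums k (insert 0 Λ)` (finite).  Choose `L₁ ≥ L₀` with `v + L₁ > 0`, `1 - δ = (v + L₁) / (v' + L₁)`.  For every `N₁ ≥ n₀` there is `n' ≥ N₁` with `b n' > v' n'`; let `N` be the first `n > n'` with `b n < v n`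
(exists because `v > liminf`).  Then `b n ≥ v n` for `n' ≤ n < N`, and `v N > b N ≥ b n' - L₁ (N - n') > v' n' - L₁ (N - n')`, so `n' < (1 - δ) N`.  So the set `S` of the `N` with `b N < v N` and `b n ≥ v n` for all `n ∈ [(1 - δ) N, N)` is infinite.
Let `𝒰` be an ultrafilter `≤ atTop ⊓ 𝓟 S`, `F` the blow-down (BLO), `g r = F (r, …, r)`: `g r = lim b ⌊r N⌋ / N`.  `g 1 = v` (`v (N - 1) - L₀ ≤ b (N-1) - L₀ ≤ b N < v N`).  For `1 - δ < t < 1`: `⌊t N⌋ ∈ [(1 - δ) N, N)` for large `N`, so `g t ≥ v t`.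
This contradicts CVX (`Visc` from VIS, `|g r| ≤ L (k + 1) r` from `bd`).
(2) So `b n / n → β`.  Take any ultrafilter `𝒰 ≤ atTop` (`hyperfilter ℕ`): `g r = lim b ⌊r N⌋ / N = β r` for `r > 0`, and CVX gives `β ∈ Sums k (insert 0 Λ)`. -/
def S_FINB : Prop := ∀ (k : ℕ) (U : (Fin (k + 1) → ℕ) → ℝ) (κ : Fin (k + 1) → (Fin (k + 1) → ℕ) → ℝ)
  (Λ : Finset ℝ), JumpData k U κ Λ → ∃ β : ℝ,
    (∃ l : Fin (k + 1) → ℝ, (∀ i, l i ∈ insert 0 Λ) ∧ β = ∑ i, l i) ∧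
      Tendsto (fun n : ℕ => Real.log (U fun _ => n) / n) atTop (𝓝 β)

end Pool.Agent.Helper40.GO
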