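import Pool.Agent.Helper40.GO.MAIND0
import Pool.Agent.Helper8.GO.JMP
import Pool.Agent.Helper53.GO.BLO
import Pool.Agent.Helper59.GO.TCH
import Pool.Agent.Helper82.GO.VIS
import Pool.Agent.Helper49.GO.CVX
import Pool.Agent.Helper12.GO.FINB

/-!
# Project GO (MP_6af536_nt), part D: composition of the packets.
-/

set_option autoImplicit false

open Filter Topology

noncomputable section

namespace Pool.Agent.Helper40.GO

/-- the growth of the diagonal -/
theorem maind : Pool.Agent.Helper10.GO.S_MAIND :=
  maind_of (Pool.Agent.Helper12.GO.finb (Pool.Agent.Helper53.GO.blo Pool.Agent.Helper8.GO.jmp)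
    (Pool.Agent.Helper82.GO.vis Pool.Agent.Helper59.GO.tch) Pool.Agent.Helper49.GO.cvx)

end Pool.Agent.Helper40.GO
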