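import Pool.Agent.Helper10.GO.DefsD
import Pool.Agent.Helper40.GO.DefsD

/-!
# Project GO (MP_6af536_nt), part D: from `S_FINB` to `S_MAIND`.
-/

set_option autoImplicit false

open Filter Topology

noncomputable section

namespace Pool.Agent.Helper40.GO

theorem maind_of (h : S_FINB) : Pool.Agent.Helper10.GO.S_MAIND := by
  intro k U κ Λ hJ
  obtain ⟨β, ⟨l, hl, hβ⟩, ht⟩ := h k U κ Λ ⟨hJ.κpos, hJ.κupd, hJ.κle, hJ.lip, hJ.jump⟩
  exact ⟨l, hl, hβ ▸ ht⟩

end Pool.Agent.Helper40.GO
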