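import Pool.Agent.Helper69.HD.GENEX

/-!
# Project GO (MP_6af536_nt): prime ideals of polynomial rings over a number field have generic points in `ℂ`,
and specializations of points.
-/

set_option autoImplicit false

open MvPolynomial

noncomputable section

namespace Pool.Agent.Helper40.GO

open Pool.Agent.Helper80.HD

/-- a finite algebraically independent family of complex numbers over `K` -/
theorem exists_algInd (K : Type) [Field K] [NumberField K] [Algebra K ℂ] (ι : Type) [Finite ι] :
    ∃ c : ι → ℂ, AlgebraicIndependent K c := by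
  obtain ⟨c, hc⟩ := Pool.Agent.Helper69.HD.genex K ⊥ (IntermediateField.fg_bot) ι
  refine ⟨c, hc.restrictScalars ?_⟩
  exact (algebraMap K (⊥ : IntermediateField K ℂ)).injective

/-- a prime ideal has a generic point -/
theorem exists_generic (K : Type) [Field K] [NumberField K] [Algebra K ℂ] (σ : Type) [Finite σ]
    (P : Ideal (MvPolynomial σ K)) [hP : P.IsPrime] :
    ∃ η : σ → ℂ, ∀ E : MvPolynomial σ K, E ∈ P ↔ aeval η E = 0 := by
  have hadj : Algebra.adjoin K (Set.range fun j : σ => (Ideal.Quotient.mkₐ K P) (X j)) = ⊤ := by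
    have h1 : (Set.range fun j : σ => (Ideal.Quotient.mkₐ K P) (X j)) =
        (Ideal.Quotient.mkₐ K P) '' (Set.range (X : σ → MvPolynomial σ K)) := by
      rw [← Set.range_comp]
      rfl
    rw [h1, Algebra.adjoin_image, MvPolynomial.adjoin_range_X, Algebra.map_top]
    exact (AlgHom.range_eq_top _).2 (Ideal.Quotient.mkₐ_surjective K P)
  have halg : Algebra.IsAlgebraic
      (Algebra.adjoin K (Set.range fun j : σ => (Ideal.Quotient.mkₐ K P) (X j))) (MvPolynomial σ K ⧸ P) := by
    refine ⟨fun r => ?_⟩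
    have hr : r ∈ Algebra.adjoin K (Set.range fun j : σ => (Ideal.Quotient.mkₐ K P) (X j)) := by
      rw [hadj]; exact Algebra.mem_top
    exact isAlgebraic_algebraMap (⟨r, hr⟩ : Algebra.adjoin K (Set.range fun j : σ => (Ideal.Quotient.mkₐ K P) (X j)))
  have hfaith : FaithfulSMul K (MvPolynomial σ K ⧸ P) :=
    (faithfulSMul_iff_algebraMap_injective K _).2 (algebraMap K (MvPolynomial σ K ⧸ P)).injective
  obtain ⟨t, hts, ht⟩ := exists_isTranscendenceBasis_subset (R := K) (A := MvPolynomial σ K ⧸ P)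
    (Set.range fun j : σ => (Ideal.Quotient.mkₐ K P) (X j))
  have htf : Finite t := (Set.finite_range _).subset hts |>.to_subtype
  obtain ⟨c, hc⟩ := exists_algInd K t
  let A0 := Algebra.adjoin K (Set.range ((↑) : t → (MvPolynomial σ K ⧸ P)))
  let g : A0 →ₐ[K] ℂ := (aeval c).comp (ht.1.aevalEquiv.symm : A0 ≃ₐ[K] MvPolynomial t K).toAlgHom
  have hg : Function.Injective g := by
    intro a b hab
    exact (ht.1.aevalEquiv.symm).injective (hc hab)
  let _ : Algebra A0 ℂ := g.toRingHom.toAlgebra
  have hf : FaithfulSMul A0 ℂ := (faithfulSMul_iff_algebraMap_injective A0 ℂ).2 hg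
  have hA0 : Algebra.IsAlgebraic A0 (MvPolynomial σ K ⧸ P) := ht.isAlgebraic
  have hinj0 : Function.Injective (algebraMap A0 (FractionRing (MvPolynomial σ K ⧸ P))) := by
    intro a b hab
    exact Subtype.ext ((IsFractionRing.injective (MvPolynomial σ K ⧸ P)
      (FractionRing (MvPolynomial σ K ⧸ P))) hab)
  have htf1 : Module.IsTorsionFree A0 (FractionRing (MvPolynomial σ K ⧸ P)) :=
    Module.isTorsionFree_iff_algebraMap_injective.2 hinj0
  have htf2 : Module.IsTorsionFree A0 ℂ := Module.isTorsionFree_iff_algebraMap_injective.2 hg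
  have hA1 : Algebra.IsAlgebraic A0 (FractionRing (MvPolynomial σ K ⧸ P)) :=
    (IsFractionRing.isAlgebraic_iff' A0 (MvPolynomial σ K ⧸ P) (FractionRing (MvPolynomial σ K ⧸ P))).1 hA0
  let φ : FractionRing (MvPolynomial σ K ⧸ P) →ₐ[A0] ℂ := IsAlgClosed.lift
  let ψ : MvPolynomial σ K →+* ℂ := (φ : FractionRing (MvPolynomial σ K ⧸ P) →+* ℂ).comp
    ((algebraMap (MvPolynomial σ K ⧸ P) (FractionRing (MvPolynomial σ K ⧸ P))).comp (Ideal.Quotient.mk P))
  have hψC : ∀ a : K, ψ (C a) = algebraMap K ℂ a := by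
    intro a
    have h1 : (algebraMap (MvPolynomial σ K ⧸ P) (FractionRing (MvPolynomial σ K ⧸ P)))
        ((Ideal.Quotient.mk P) (C a)) = algebraMap A0 (FractionRing (MvPolynomial σ K ⧸ P))
          (algebraMap K A0 a) := rfl
    have h3 : ψ (C a) = φ ((algebraMap (MvPolynomial σ K ⧸ P) (FractionRing (MvPolynomial σ K ⧸ P)))
        ((Ideal.Quotient.mk P) (C a))) := rfl
    rw [h3, h1, φ.commutes]
    show g (algebraMap K A0 a) = _
    exact g.commutes a
  refine ⟨fun j => ψ (X j), fun E => ?_⟩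
  have h2 : ψ E = aeval (fun j => ψ (X j)) E := by
    have : ψ = ((aeval fun j => ψ (X j)) : MvPolynomial σ K →ₐ[K] ℂ).toRingHom := by
      refine MvPolynomial.ringHom_ext (fun a => ?_) fun j => ?_
      · rw [hψC]
        show _ = aeval _ (C a)
        rw [aeval_C]
      · show _ = aeval _ (X j)
        rw [aeval_X]
    conv_lhs => rw [this]
    rfl
  rw [← h2]
  have hinj : Function.Injective ((φ : FractionRing (MvPolynomial σ K ⧸ P) →+* ℂ).comp
    (algebraMap (MvPolynomial σ K ⧸ P) (FractionRing (MvPolynomial σ K ⧸ P)))) := by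
    intro a b hab
    exact (IsFractionRing.injective (MvPolynomial σ K ⧸ P) (FractionRing (MvPolynomial σ K ⧸ P)))
      ((φ : FractionRing (MvPolynomial σ K ⧸ P) →+* ℂ).injective hab)
  rw [← Ideal.Quotient.eq_zero_iff_mem]
  constructor
  · intro h
    show ((φ : FractionRing (MvPolynomial σ K ⧸ P) →+* ℂ).comp
      (algebraMap (MvPolynomial σ K ⧸ P) (FractionRing (MvPolynomial σ K ⧸ P)))) (Ideal.Quotient.mk P E) = 0
    rw [h, map_zero]
  · intro h
    exact hinj (h.trans (map_zero _).symm)

end Pool.Agent.Helper40.GO
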