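import Pool.Agent.Helper40.GO.PTP

/-!
# Project GO (MP_6af536_nt): specializations and transcendence degrees.
-/

set_option autoImplicit false

open MvPolynomial

noncomputable section

namespace Pool.Agent.Helper40.GO

open Pool.Agent.Helper80.HD

variable {K : Type} [Field K] [Algebra K ℂ] {σ : Type} [Finite σ]

/-- a transcendence basis among the coordinates -/
theorem exists_basis (x : σ → ℂ) : ∃ (n : ℕ) (f : Fin n → σ), AlgebraicIndependent K (fun i => x (f i)) ∧
    (n : Cardinal) = Algebra.trdeg K (IntermediateField.adjoin K (Set.range x)) := by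
  classical
  set E := IntermediateField.adjoin K (Set.range x) with hE
  have hx : ∀ i, x i ∈ E := fun i => IntermediateField.subset_adjoin K _ ⟨i, rfl⟩
  let xE : σ → E := fun i => ⟨x i, hx i⟩
  have hmem : ∀ Q : MvPolynomial σ K, aeval xE Q ∈ Algebra.adjoin K (Set.range xE) := by
    intro Q
    rw [Algebra.adjoin_range_eq_range_aeval]
    exact ⟨Q, rfl⟩
  have hco : ∀ Q : MvPolynomial σ K, ((aeval xE Q : E) : ℂ) = aeval x Q := by
    intro Q
    have : (fun i => ((xE i : E) : ℂ)) = x := rfl
    rw [← this]
    exact (MvPolynomial.aeval_algebraMap_apply ℂ xE Q).symm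
  have halg : Algebra.IsAlgebraic (Algebra.adjoin K (Set.range xE)) E := by
    refine ⟨fun e => ?_⟩
    obtain ⟨r, s, hrs⟩ := (IntermediateField.mem_adjoin_range_iff K x (e : ℂ)).1 e.2
    by_cases hs : aeval x s = 0
    · have he : e = 0 := by
        apply Subtype.ext
        rw [hrs, hs, div_zero]
        rfl
      rw [he]
      exact isAlgebraic_zero
    · have he : e = aeval xE r / aeval xE s := by
        apply Subtype.ext
        rw [hrs]
        show _ = ((aeval xE r : E) : ℂ) / ((aeval xE s : E) : ℂ)
        rw [hco, hco]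
      rw [he, div_eq_mul_inv]
      have h1 : IsAlgebraic (Algebra.adjoin K (Set.range xE)) (aeval xE r) :=
        isAlgebraic_algebraMap (⟨_, hmem r⟩ : Algebra.adjoin K (Set.range xE))
      have h2 : IsAlgebraic (Algebra.adjoin K (Set.range xE)) (aeval xE s) :=
        isAlgebraic_algebraMap (⟨_, hmem s⟩ : Algebra.adjoin K (Set.range xE))
      exact h1.mul h2.inv
  obtain ⟨t, hts, ht⟩ := exists_isTranscendenceBasis_subset (R := K) (A := E) (Set.range xE)
  have htf : Finite t := ((Set.finite_range _).subset hts).to_subtype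
  obtain ⟨n, ⟨e⟩⟩ := Finite.exists_equiv_fin t
  have hch : ∀ i : Fin n, ∃ j, xE j = (e.symm i : E) := fun i => hts (e.symm i).2
  choose f hf using hch
  refine ⟨n, f, ?_, ?_⟩
  · have h1 : AlgebraicIndependent K (fun i : Fin n => ((e.symm i : t) : E)) := ht.1.comp _ e.symm.injective
    have h2 : AlgebraicIndependent K (fun i : Fin n => xE (f i)) := by
      have : (fun i : Fin n => xE (f i)) = fun i : Fin n => ((e.symm i : t) : E) := funext hf
      rw [this]
      exact h1
    exact h2.map' (f := E.val) E.val.injective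
  · rw [← ht.cardinalMk_eq_trdeg, Cardinal.mk_congr e]
    simp

/-- A specialization which does not decrease the transcendence degree is an isomorphism. -/
theorem spec_eq {x y : σ → ℂ} (hS : ∀ Q : MvPolynomial σ K, aeval y Q = 0 → aeval x Q = 0)
    (htr : Algebra.trdeg K (IntermediateField.adjoin K (Set.range y)) ≤
      Algebra.trdeg K (IntermediateField.adjoin K (Set.range x))) :
    ∀ Q : MvPolynomial σ K, aeval x Q = 0 → aeval y Q = 0 := by
  intro Q hQ
  by_contra hQy
  obtain ⟨n, f, hf, hn⟩ := exists_basis (K := K) x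
  rw [← hn] at htr
  set E := IntermediateField.adjoin K (Set.range y) with hE
  have hy : ∀ i, y i ∈ E := fun i => IntermediateField.subset_adjoin K _ ⟨i, rfl⟩
  let yE : σ → E := fun i => ⟨y i, hy i⟩
  have hco : ∀ Q : MvPolynomial σ K, ((aeval yE Q : E) : ℂ) = aeval y Q := by
    intro Q
    have : (fun i => ((yE i : E) : ℂ)) = y := rfl
    rw [← this]
    exact (MvPolynomial.aeval_algebraMap_apply ℂ yE Q).symm
  have hyf : AlgebraicIndependent K (fun i => yE (f i)) := by
    rw [algebraicIndependent_iff]
    intro P hP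
    have h1 : aeval y (rename f P) = 0 := by
      rw [← hco, aeval_rename]
      have : aeval (yE ∘ f) P = 0 := hP
      rw [this]
      rfl
    have h2 := hS _ h1
    rw [aeval_rename] at h2
    exact (algebraicIndependent_iff.1 hf) P h2
  have hB := hyf.isTranscendenceBasis_of_trdeg_le_of_finite (by simpa using htr)
  have halg := hB.isAlgebraic
  have ha : IsAlgebraic (Algebra.adjoin K (Set.range fun i => yE (f i))) (aeval yE Q) := halg.1 _
  have hne : aeval yE Q ≠ 0 := by
    intro h
    apply hQy
    rw [← hco, h]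
    rfl
  obtain ⟨p, hp0, hp⟩ := ha.exists_nonzero_coeff_and_aeval_eq_zero (mem_nonZeroDivisors_of_ne_zero hne)
  have hch : ∀ b : Algebra.adjoin K (Set.range fun i => yE (f i)), ∃ R : MvPolynomial (Fin n) K,
      aeval (fun i => yE (f i)) R = (b : E) := by
    rintro ⟨b, hb⟩
    rw [Algebra.adjoin_range_eq_range_aeval] at hb
    exact hb
  choose R hR using hch
  have h3 : aeval y (∑ i ∈ Finset.range (p.natDegree + 1), rename f (R (p.coeff i)) * Q ^ i) = 0 := by
    rw [← hco, map_sum]
    have : ∑ i ∈ Finset.range (p.natDegree + 1), aeval yE (rename f (R (p.coeff i)) * Q ^ i) =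
        Polynomial.aeval (aeval yE Q) p := by
      rw [Polynomial.aeval_eq_sum_range]
      refine Finset.sum_congr rfl fun i _ => ?_
      rw [map_mul, map_pow, aeval_rename]
      have h4 : aeval (yE ∘ f) (R (p.coeff i)) = ((p.coeff i : Algebra.adjoin K (Set.range fun i => yE (f i))) : E) :=
        hR _
      rw [h4]
      rfl
    rw [this, hp]
    rfl
  have h5 := hS _ h3
  rw [map_sum, Finset.sum_range_succ'] at h5
  simp only [map_mul, map_pow, hQ, pow_zero, mul_one] at h5
  rw [Finset.sum_eq_zero (fun i _ => by rw [zero_pow (Nat.succ_ne_zero i), mul_zero]), zero_add, aeval_rename] at h5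
  have h6 := (algebraicIndependent_iff.1 hf) _ h5
  apply hp0
  apply Subtype.ext
  rw [← hR, h6, map_zero]
  rfl

end Pool.Agent.Helper40.GO
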