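import Pool.Agent.Helper40.GO.GoalsQ
import Pool.Agent.Helper74.GO.QCERT
import Pool.Agent.Helper12.GO.QNUL
import Pool.Agent.Helper14.GO.QPAD
import Pool.Agent.Helper93.GO.QLIN
import Pool.Agent.Helper87.GO.PDM2
import Pool.Agent.Helper36.GO.LIN2
import Pool.Agent.Helper8.GO.CHN
import Pool.Agent.Helper64.GO.CHN2
import Pool.Agent.Helper35.GO.TAY
import Pool.Agent.Helper93.GO.AFP
import Pool.Agent.Helper74.GO.INT
import Pool.Agent.Helper96.GO.STR
import Pool.Agent.Helper82.GO.EMB
import Pool.Agent.Helper56.GO.EMA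
import Pool.Agent.Helper31.GO.PDV
import Pool.Agent.Helper88.GO.AIP
import Pool.Agent.Helper82.GO.UNR

/-!
# Project GO (MP_6af536_nt), module Q: composition.
-/

set_option autoImplicit false

noncomputable section

namespace Pool.Agent.Helper40.GO

open Pool.Agent.Helper10.GO

theorem pdm2' : S_PDM2 :=
  Pool.Agent.Helper87.GO.pdm2
    (Pool.Agent.Helper36.GO.lin2 Pool.Agent.Helper8.GO.chn (Pool.Agent.Helper64.GO.chn2 Pool.Agent.Helper8.GO.chn)
      Pool.Agent.Helper35.GO.tay Pool.Agent.Helper93.GO.afp)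
    Pool.Agent.Helper74.GO.intp Pool.Agent.Helper96.GO.strm

theorem emb' : S_EMB :=
  Pool.Agent.Helper82.GO.emb Pool.Agent.Helper56.GO.ema Pool.Agent.Helper31.GO.pdv Pool.Agent.Helper88.GO.aip

theorem qcert' : S_QCERT := Pool.Agent.Helper74.GO.qcert Pool.Agent.Helper12.GO.qnul

theorem qpad' : S_QPAD := Pool.Agent.Helper14.GO.qpad Pool.Agent.Helper93.GO.qlin pdm2'

/-- The Mordell-Lang property for unramified self-maps of quasi-projective varieties. -/
theorem unr : S_UNR := Pool.Agent.Helper82.GO.unr qcert' qpad' emb'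

end Pool.Agent.Helper40.GO
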